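import Pool.Agent.Helper92.BW.GoalsC
import Pool.Agent.Helper73.FR.PTC
import Pool.Agent.Helper93.FR.PTS
import Pool.Agent.Helper87.FR.MKP

/-!
# Packet BW-PRI: the rounding is computed in polynomial time
-/

set_option autoImplicit false

namespace Pool.Agent.Helper73.BW

open Pool.Agent.Helper81.CC Pool.Agent.Bin Pool.Agent.Helper92.VP
open Pool.Agent.Helper92.FR
open Pool.Agent.Helper92.BW
open Pool.Agent.Helper93.FR (Inv sz_list inv_sz inv_get inv_cini)

lemma sfac_le (d : ℕ) (ph : List Qn) (i : ℕ) : (sfac d ph i).val ≤ 2 * qs d := by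
  unfold sfac
  split_ifs with h
  · rw [BN.le_def, BN.val_ofNat] at h
    exact h
  · simp

lemma qs_pos (d : ℕ) : 1 ≤ qs d := by
  have : 0 < qs d := by
    unfold qs
    positivity
  exact this

lemma inv_scut {d Y Z : ℕ} {st : Cst} (ph : List Qn) (h : Inv d Y Z st) :
    Inv d (5 * qs d * Y) (5 * qs d * Z) (scut d st ph) := by
  refine ⟨by simp [scut], ?_, ?_⟩
  · intro v hv
    unfold scut at hv
    simp only [List.mem_map, List.mem_range] at hv
    obtain ⟨i, -, rfl⟩ := hv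
    refine ⟨by simp, ?_⟩
    intro z hz
    simp only [List.mem_map, List.mem_range] at hz
    obtain ⟨l, -, rfl⟩ := hz
    have h1 := inv_get h i l
    have h2 := inv_get h (pmax d ph) l
    have h3 := sfac_le d ph i
    generalize ((st.1.getD i []).getD l (⟨0⟩, ⟨0⟩)) = a at *
    generalize ((st.1.getD (pmax d ph) []).getD l (⟨0⟩, ⟨0⟩)) = b at *
    generalize sfac d ph i = f at *
    split_ifs
    · simp only [BN.val_mul, BN.val_ofNat]
      calc qs d * a.1.val + qs d * a.2.val = qs d * (a.1.val + a.2.val) := by ring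
        _ ≤ qs d * Y := Nat.mul_le_mul_left _ h1
        _ ≤ 5 * qs d * Y := Nat.mul_le_mul_right _ (by omega)
    · simp only [BN.val_mul, BN.val_add, BN.val_ofNat]
      calc qs d * b.1.val + f.val * (a.1.val + b.2.val) +
            (qs d * b.2.val + f.val * (a.2.val + b.1.val))
          = qs d * (b.1.val + b.2.val) + f.val * ((a.1.val + a.2.val) + (b.1.val + b.2.val)) := by
            ring
        _ ≤ qs d * Y + (2 * qs d) * (Y + Y) :=
            Nat.add_le_add (Nat.mul_le_mul_left _ h2)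
              (Nat.mul_le_mul h3 (Nat.add_le_add h1 h2))
        _ = 5 * qs d * Y := by ring
  · unfold scut
    simp only [BN.val_mul, BN.val_ofNat]
    obtain ⟨-, -, h3⟩ := h
    calc qs d * st.2.val ≤ qs d * Z := Nat.mul_le_mul_left _ h3
      _ ≤ 5 * qs d * Z := Nat.mul_le_mul_right _ (by omega)

lemma inv_mono {d Y Z Y' Z' : ℕ} {st : Cst} (h : Inv d Y Z st) (hY : Y ≤ Y') (hZ : Z ≤ Z') :
    Inv d Y' Z' st :=
  ⟨h.1, fun v hv => ⟨(h.2.1 v hv).1, fun z hz => ((h.2.1 v hv).2 z hz).trans hY⟩, h.2.2.trans hZ⟩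

lemma inv_rstep {d Y Z : ℕ} {st : Cst} (rows : List (List Qn × Qn)) (h : Inv d Y Z st) :
    Inv d (5 * qs d * Y) (5 * qs d * Z) (rstep d rows st) := by
  unfold rstep
  cases hf : rows.find? (bad d st) with
  | none =>
    simp only [Option.map_none, Option.getD_none]
    have hq := qs_pos d
    exact inv_mono h (Nat.le_mul_of_pos_left _ (by omega)) (Nat.le_mul_of_pos_left _ (by omega))
  | some r =>
    simp only [Option.map_some, Option.getD_some]
    exact inv_scut _ h

lemma inv_iter (d B : ℕ) (rows : List (List Qn × Qn)) (k : ℕ) :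
    Inv d ((5 * qs d) ^ k * ((2 * d + 1) * 2 ^ B)) ((5 * qs d) ^ k)
      ((rstep d rows)^[k] (cini d B)) := by
  induction k with
  | zero => simpa using inv_cini d B
  | succ k ih =>
    rw [Function.iterate_succ_apply']
    have := inv_rstep rows ih
    have e1 : 5 * qs d * ((5 * qs d) ^ k * ((2 * d + 1) * 2 ^ B)) =
        (5 * qs d) ^ (k + 1) * ((2 * d + 1) * 2 ^ B) := by ring
    have e2 : 5 * qs d * (5 * qs d) ^ k = (5 * qs d) ^ (k + 1) := by ring
    rw [e1, e2] at this
    exact this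

/-- **PRI.** The rounding is computed in polynomial time. -/
theorem pri (hO : ProStmt) : PriStmt := by
  have hC := Pool.Agent.Helper73.FR.ptc
  have hrows : PolyTime rowsQ := hO.1
  have hd : PolyTime (fun S : Sys => S.1) := by fun_prop
  have hB : PolyTime (fun S : Sys => 4 * ssize S ^ 2) := by fun_prop
  have hk : PolyTime (fun S : Sys => 500 * (ssize S + 1) ^ 6) := by fun_prop
  have hini : PolyTime (fun S : Sys => cini S.1 (4 * ssize S ^ 2)) :=
    (hC Sys (fun S => S.1) (fun S => 4 * ssize S ^ 2)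
      (fun _ => (([] : List (List (BN × BN))), (⟨0⟩ : BN)))
      (fun _ => []) hd hB (by fun_prop) (by fun_prop)).2.1
  have hstep : PolyTime (fun z : Sys × Cst => rstep z.1.1 (rowsQ z.1) z.2) :=
    (hO.2 (Sys × Cst) (fun z => z.1.1) (fun z => z.2) (fun z => rowsQ z.1) (by fun_prop)
      (by fun_prop) (PolyTime.comp hrows (by fun_prop))).1
  have hq : PBd (fun S : Sys => qs S.1) := by
    refine PBd.nat (f := fun S : Sys => qs S.1) ?_
    unfold qs
    fun_prop
  set k : Sys → ℕ := fun S => 500 * (ssize S + 1) ^ 6 with hkdef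
  set B : Sys → ℕ := fun S => 4 * ssize S ^ 2 with hBdef
  set N : Sys → ℕ := fun S => 5 * qs S.1 * k S + (2 * S.1 + 1) + B S + 1 with hNdef
  have hN : PBd N :=
    ((((((PBd.const 5).mul hq).mul (PBd.nat hk)).add
      (((PBd.const 2).mul (PBd.nat hd)).add (PBd.const 1))).add (PBd.nat hB)).add (PBd.const 1))
  have hBd : PBd (fun S : Sys => ((8 * N S + 4) * S.1 + 2) * (S.1 + 1) + 1 +
      (4 * N S + 1) + 1) :=
    ((((((((PBd.const 8).mul hN).add (PBd.const 4)).mul (PBd.nat hd)).add (PBd.const 2)).mul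
      ((PBd.nat hd).add (PBd.const 1))).add (PBd.const 1)).add
        (((PBd.const 4).mul hN).add (PBd.const 1))).add (PBd.const 1)
  show PolyTime (fun S : Sys => (rstep S.1 (rowsQ S))^[k S] (cini S.1 (B S)))
  refine PolyTime.iterate_bd (n := k) (s0 := fun S => cini S.1 (B S))
    (step := fun S st => rstep S.1 (rowsQ S) st) hk hini hstep hBd ?_
  intro S j hj
  have hinv := inv_iter S.1 (B S) (rowsQ S) j
  have hQ : 1 ≤ 5 * qs S.1 := by
    have := qs_pos S.1
    omega
  have hp1 : (5 * qs S.1) ^ j ≤ 2 ^ (5 * qs S.1 * k S) := by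
    calc (5 * qs S.1) ^ j ≤ (5 * qs S.1) ^ (k S) := Nat.pow_le_pow_right hQ hj
      _ ≤ (2 ^ (5 * qs S.1)) ^ (k S) := Nat.pow_le_pow_left Nat.lt_two_pow_self.le _
      _ = 2 ^ (5 * qs S.1 * k S) := by rw [← pow_mul]
  have hp2 : 2 * S.1 + 1 ≤ 2 ^ (2 * S.1 + 1) := Nat.lt_two_pow_self.le
  have hNa : N S = 5 * qs S.1 * k S + (2 * S.1 + 1) + B S + 1 := rfl
  have hpow : 2 ^ (N S) = 2 * (2 ^ (5 * qs S.1 * k S) * (2 ^ (2 * S.1 + 1) * 2 ^ B S)) := by
    rw [hNa, pow_succ, pow_add, pow_add]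
    ring
  have hpos : 0 < 2 ^ (5 * qs S.1 * k S) * (2 ^ (2 * S.1 + 1) * 2 ^ B S) := by positivity
  refine inv_sz hinv ?_ ?_
  · have h1 : (5 * qs S.1) ^ j * ((2 * S.1 + 1) * 2 ^ B S) ≤
        2 ^ (5 * qs S.1 * k S) * (2 ^ (2 * S.1 + 1) * 2 ^ B S) :=
      Nat.mul_le_mul hp1 (Nat.mul_le_mul_right _ hp2)
    omega
  · have h1 : (5 * qs S.1) ^ j ≤ 2 ^ (5 * qs S.1 * k S) * (2 ^ (2 * S.1 + 1) * 2 ^ B S) :=
      hp1.trans (Nat.le_mul_of_pos_right _ (by positivity))
    omega

end Pool.Agent.Helper73.BW
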